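import Pool.Agent.Y661.HE.BND
import Pool.Agent.H4R2.HD.BA

set_option autoImplicit false

/-! # Return probabilities, and the energy up to `d⁻³` (project HE, `S_RET`, `S_EXP`) -/

namespace Pool.Agent.Y297.HE.RET

open MeasureTheory Filter
open Pool.Agent.H12R2.And (V ee)
open Pool.Agent.H4R2.HD (Av Gn ind)
open Pool.Agent.Y661.HE

theorem sum_ee {d : ℕ} (i : Fin d) : ∑ j, (ee i : V d) j = 1 := by
  simp [ee]

theorem parity {d : ℕ} (j : ℕ) : ∀ x : V d, Odd (∑ i, x i + (j : ℤ)) → (Av^[j] (ind 0)) x = 0 := by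
  induction j with
  | zero =>
    intro x hx
    have hne : x ≠ 0 := by
      rintro rfl
      simp at hx
    show ind 0 x = 0
    unfold ind
    rw [if_neg hne]
  | succ j ih =>
    intro x hx
    rw [Function.iterate_succ_apply']
    unfold Av
    have h : ∀ i : Fin d, (Av^[j] (ind 0)) (x + ee i) + (Av^[j] (ind 0)) (x - ee i) = 0 := by
      intro i
      rw [ih (x + ee i), ih (x - ee i), add_zero]
      · have : ∑ k, (x - ee i) k + (j : ℤ) = ∑ k, x k + ((j + 1 : ℕ) : ℤ) - 2 := by
          simp only [Pi.sub_apply, Finset.sum_sub_distrib, sum_ee]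
          push_cast
          ring
        rw [this]
        exact hx.sub_even (by decide)
      · have : ∑ k, (x + ee i) k + (j : ℤ) = ∑ k, x k + ((j + 1 : ℕ) : ℤ) := by
          simp only [Pi.add_apply, Finset.sum_add_distrib, sum_ee]
          push_cast
          ring
        rw [this]
        exact hx
    change (∑ i : Fin d, ((Av^[j] (ind 0)) (x + ee i) + (Av^[j] (ind 0)) (x - ee i))) / (2 * d) = 0
    rw [Finset.sum_eq_zero fun i _ => h i, zero_div]

theorem two {d : ℕ} (hd : 1 ≤ d) : (Av^[2] (ind (0 : V d))) 0 = 1 / (2 * d) := by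
  classical
  have hd0 : (d : ℝ) ≠ 0 := by
    have : (0 : ℝ) < d := by exact_mod_cast hd
    exact this.ne'
  have e1 : ∀ i : Fin d, Av (ind (0 : V d)) (0 + ee i) = 1 / (2 * d) := by
    intro i
    unfold Av
    congr 1
    have h : ∀ k : Fin d, ind (0 : V d) (0 + ee i + ee k) + ind (0 : V d) (0 + ee i - ee k) =
        if i = k then 1 else 0 := by
      intro k
      have h1 : (0 + ee i + ee k : V d) ≠ 0 := by
        intro h
        have := congrArg (fun z : V d => ∑ j, z j) h
        simp only [Pi.add_apply, Pi.zero_apply, Finset.sum_add_distrib, sum_ee] at this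
        simp at this
      have h2 : (0 + ee i - ee k : V d) = 0 ↔ i = k := by
        rw [zero_add, sub_eq_zero]
        constructor
        · intro h
          by_contra hne
          have := congrFun h i
          simp [ee, Pi.single_eq_of_ne hne] at this
        · rintro rfl
          rfl
      unfold ind
      rw [if_neg h1, zero_add]
      by_cases hik : i = k
      · rw [if_pos (h2.2 hik), if_pos hik]
      · rw [if_neg (fun h => hik (h2.1 h)), if_neg hik]
    rw [Finset.sum_congr rfl fun k _ => h k, Finset.sum_ite_eq]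
    simp
  have e2 : ∀ i : Fin d, Av (ind (0 : V d)) (0 - ee i) = 1 / (2 * d) := by
    intro i
    unfold Av
    congr 1
    have h : ∀ k : Fin d, ind (0 : V d) (0 - ee i + ee k) + ind (0 : V d) (0 - ee i - ee k) =
        if i = k then 1 else 0 := by
      intro k
      have h1 : (0 - ee i - ee k : V d) ≠ 0 := by
        intro h
        have := congrArg (fun z : V d => ∑ j, z j) h
        simp only [Pi.sub_apply, Pi.zero_apply, Finset.sum_sub_distrib, sum_ee] at this
        simp at this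
      have h2 : (0 - ee i + ee k : V d) = 0 ↔ i = k := by
        rw [zero_sub, neg_add_eq_zero]
        constructor
        · intro h
          by_contra hne
          have := congrFun h i
          simp [ee, Pi.single_eq_of_ne hne] at this
        · rintro rfl
          rfl
      unfold ind
      rw [if_neg h1, add_zero]
      by_cases hik : i = k
      · rw [if_pos (h2.2 hik), if_pos hik]
      · rw [if_neg (fun h => hik (h2.1 h)), if_neg hik]
    rw [Finset.sum_congr rfl fun k _ => h k, Finset.sum_ite_eq]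
    simp
  have e3 : (Av^[2] (ind (0 : V d))) 0 = Av (Av (ind (0 : V d))) 0 := rfl
  rw [e3]
  have e4 : Av (Av (ind (0 : V d))) 0 =
      (∑ i : Fin d, (Av (ind (0 : V d)) (0 + ee i) + Av (ind (0 : V d)) (0 - ee i))) / (2 * d) := rfl
  rw [e4, Finset.sum_congr rfl fun i _ => by rw [e1 i, e2 i], Finset.sum_const, Finset.card_univ,
    Fintype.card_fin, nsmul_eq_mul]
  field_simp
  norm_num

theorem four (hKB : Pool.Agent.H4R2.HD.S_KB) {d : ℕ} (hd : 1 ≤ d) (j : ℕ) :
    0 ≤ (Av^[3 + j] (ind (0 : V d))) 0 ∧ (Av^[3 + j] (ind (0 : V d))) 0 ≤ 120 / d ^ 2 := by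
  refine ⟨(hKB hd _ _ _).1, ?_⟩
  have hd0 : (0 : ℝ) < d := by exact_mod_cast hd
  rcases Nat.eq_zero_or_pos j with rfl | hj
  · rw [parity]
    · positivity
    · simp
      decide
  · obtain ⟨m, rfl⟩ : ∃ m, j = m + 1 := ⟨j - 1, by omega⟩
    have e1 : 3 + (m + 1) = m + 4 := by ring
    rw [e1, Function.iterate_add_apply]
    have h1 : ∀ x : V d, (Av^[4] (ind 0)) x ≤ 120 / (d : ℝ) ^ 2 := by
      intro x
      refine (hKB hd 4 0 x).2.trans (le_of_eq ?_)
      have h2 : ((Real.sqrt d)⁻¹) ^ 4 = 1 / (d : ℝ) ^ 2 := by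
        have h3 : Real.sqrt d ^ 4 = (d : ℝ) ^ 2 := by
          have : Real.sqrt d ^ 4 = (Real.sqrt d ^ 2) ^ 2 := by ring
          rw [this, Real.sq_sqrt hd0.le]
        rw [inv_pow, h3, one_div]
      rw [h2]
      norm_num [Nat.factorial]
      ring
    have h2 := Pool.Agent.H4R2.HD.BA.iter_mono m _ _ h1 0
    rwa [Pool.Agent.H4R2.HD.BA.iter_const hd] at h2

theorem ret (hKB : Pool.Agent.H4R2.HD.S_KB) : S_RET := by
  intro d hd N hN
  have hd0 : (0 : ℝ) < d := by exact_mod_cast hd
  obtain ⟨M, rfl⟩ : ∃ M, N = 3 + M := ⟨N - 3, by omega⟩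
  have h0 : (Av^[0] (ind (0 : V d))) 0 = 1 := by
    show ind 0 0 = (1 : ℝ)
    unfold ind
    rw [if_pos rfl]
  have h1 : (Av^[1] (ind (0 : V d))) 0 = 0 := by
    apply parity
    simp
  have e1 : ∑ j ∈ Finset.range (3 + M), (Av^[j] (ind (0 : V d))) 0 - (1 + 1 / (2 * d)) =
      ∑ j ∈ Finset.range M, (Av^[3 + j] (ind (0 : V d))) 0 := by
    rw [Finset.sum_range_add, Finset.sum_range_succ, Finset.sum_range_succ, Finset.sum_range_one,
      h0, h1, two hd]
    ring
  rw [e1, abs_of_nonneg (Finset.sum_nonneg fun j _ => (four hKB hd j).1)]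
  refine (Finset.sum_le_sum fun j _ => (four hKB hd j).2).trans ?_
  rw [Finset.sum_const, Finset.card_range, nsmul_eq_mul, mul_div_assoc']
  apply div_le_div_of_nonneg_right _ (by positivity)
  push_cast
  linarith

theorem ae_Bd {d : ℕ} (μ : Measure ℝ) [IsProbabilityMeasure μ] (c : ℝ)
    (hμ : ∀ᵐ t ∂μ, |t| ≤ c) : ∀ᵐ W ∂(PI d μ), Bd c W := by
  unfold Bd
  rw [ae_all_iff]
  intro x
  exact (measurePreserving_eval_infinitePi (fun _ : Fin d → ℤ => μ) x).quasiMeasurePreserving.ae hμ

theorem ex (hB : S_BND) (hE : S_ENE) (hR : S_RET) : S_EXP := by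
  intro d hd N K c v μ _ hc hμ hsym hv h8 hN hK
  have hd0 : (0 : ℝ) < d := by exact_mod_cast hd
  obtain ⟨M, rfl⟩ : ∃ M, K = 2 + M := ⟨K - 2, by omega⟩
  obtain ⟨bE, -⟩ := hB hd N c (PI d μ) hc.le (ae_Bd μ c hμ)
  obtain ⟨f1, f2, f3⟩ := hE hd N c v μ hμ hsym hv
  have hv0 : 0 ≤ v := by
    rw [← hv]
    exact integral_nonneg fun t => sq_nonneg t
  set q : ℝ := c * N / d with hq
  have hq0 : 0 ≤ q := by positivity
  have hq8 : 8 * q ≤ 1 := by
    rw [hq]
    refine le_trans (le_of_eq ?_) h8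
    ring
  have bE' : ∀ n, |en N (PI d μ) (n + 1)| ≤ c * (4 * q) ^ n := by
    intro n
    refine (bE n).trans ?_
    rw [mul_pow, mul_assoc]
    apply mul_le_mul_of_nonneg_left _ hc.le
    exact mul_le_mul_of_nonneg_right (BND.cat_le n) (by positivity)
  have e0 : en N (PI d μ) 0 = 0 := rfl
  have e1 : Es N (2 + M) (PI d μ) = en N (PI d μ) 2 +
      ∑ j ∈ Finset.range M, en N (PI d μ) (3 + j) := by
    unfold Es
    have : 2 + M + 1 = 3 + M := by ring
    rw [this, Finset.sum_range_add, Finset.sum_range_succ, Finset.sum_range_succ,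
      Finset.sum_range_one, e0, f1]
    ring
  have htail : |∑ j ∈ Finset.range M, en N (PI d μ) (3 + j)| ≤ 128 * c ^ 4 * N ^ 3 / d ^ 3 := by
    rcases Nat.eq_zero_or_pos M with rfl | hM
    · simp
      positivity
    · obtain ⟨m, rfl⟩ : ∃ m, M = m + 1 := ⟨M - 1, by omega⟩
      rw [Finset.sum_range_succ', add_zero, f3, add_zero]
      refine (Finset.abs_sum_le_sum_abs _ _).trans ?_
      have h1 : ∀ j ∈ Finset.range m, |en N (PI d μ) (3 + (j + 1))| ≤ c * (4 * q) ^ (3 + j) := by
        intro j _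
        have := bE' (3 + j)
        have e : 3 + (j + 1) = 3 + j + 1 := by ring
        rw [e]
        exact this
      refine (Finset.sum_le_sum h1).trans ?_
      rw [← Finset.mul_sum]
      have h2 : ∑ j ∈ Finset.range m, (4 * q) ^ (3 + j) = ∑ n ∈ Finset.Ico 3 (3 + m), (4 * q) ^ n := by
        rw [Finset.sum_Ico_eq_sum_range]
        simp
      rw [h2]
      have h3 := BND.geo q hq0 hq8 (Finset.Ico 3 (3 + m)) 3 fun n hn => (Finset.mem_Ico.1 hn).1
      refine (mul_le_mul_of_nonneg_left h3 hc.le).trans (le_of_eq ?_)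
      rw [hq]
      field_simp
      ring
  have hR' := hR hd N hN
  set S : ℝ := ∑ j ∈ Finset.range N, (Av^[j] (ind (0 : V d))) 0 with hS
  have hmain : |en N (PI d μ) 2 + v / (2 * d) * (1 + 1 / (2 * d))| ≤ 60 * v * N / d ^ 3 := by
    have e2 : en N (PI d μ) 2 + v / (2 * d) * (1 + 1 / (2 * d)) =
        -(v / (2 * d) * (S - (1 + 1 / (2 * d)))) := by
      rw [f2]
      ring
    rw [e2, abs_neg, abs_mul, abs_of_nonneg (by positivity : 0 ≤ v / (2 * (d : ℝ)))]
    refine (mul_le_mul_of_nonneg_left hR' (by positivity)).trans (le_of_eq ?_)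
    field_simp
    ring
  have e3 : Es N (2 + M) (PI d μ) + v / (2 * d) * (1 + 1 / (2 * d)) =
      (en N (PI d μ) 2 + v / (2 * d) * (1 + 1 / (2 * d))) +
        ∑ j ∈ Finset.range M, en N (PI d μ) (3 + j) := by
    rw [e1]
    ring
  rw [e3]
  exact (abs_add_le _ _).trans (add_le_add hmain htail)

end Pool.Agent.Y297.HE.RET
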